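import Pool.Agent.Helper96_TropD.Ore

/-!
A division ring with a surjective multiplicative map onto an ordered group of increasing
piecewise linear bijections of the rationals, which satisfies the ultrametric inequality.
-/

set_option autoImplicit false

namespace Pool.Agent.Helper96_TropD

open Multiplicative HahnSeries

/-- Laurent series over the field with two elements. -/
abbrev LS : Type := HahnSeries ℤ (ZMod 2)

theorem mul8_inj : Function.Injective (AddMonoidHom.mulLeft (8 : ℤ)) := by
  intro a b h
  simp only [AddMonoidHom.coe_mulLeft] at h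
  omega

theorem mul8_le (g g' : ℤ) :
    AddMonoidHom.mulLeft (8 : ℤ) g ≤ AddMonoidHom.mulLeft (8 : ℤ) g' ↔ g ≤ g' := by
  simp only [AddMonoidHom.coe_mulLeft]
  omega

/-- the endomorphism `X ↦ X ^ 8` -/
noncomputable def sig : LS →+* LS :=
  embDomainRingHom (AddMonoidHom.mulLeft (8 : ℤ)) mul8_inj mul8_le

theorem order_sig {f : LS} (hf : f ≠ 0) : (sig f).order = 8 * f.order := by
  have hs : sig f ≠ 0 := by
    intro h
    apply hf
    have h1 : Function.Injective (sig : LS → LS) := embDomain_injective
    exact h1 (h.trans (map_zero sig).symm)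
  have h1 : (sig f).orderTop = WithTop.map (AddMonoidHom.mulLeft (8 : ℤ)) f.orderTop :=
    orderTop_embDomain
  rw [← order_eq_orderTop_of_ne_zero hs, ← order_eq_orderTop_of_ne_zero hf, WithTop.map_coe] at h1
  exact WithTop.coe_injective h1

theorem order_mul' {f g : LS} (hf : f ≠ 0) (hg : g ≠ 0) :
    (f * g).order = f.order + g.order :=
  order_mul_of_ne_zero (mul_ne_zero (leadingCoeff_ne_zero.2 hf) (leadingCoeff_ne_zero.2 hg))

noncomputable instance : MulSemiringAction (Multiplicative ℕ) LS :=
  MulSemiringAction.compHom LS (powersHom (LS →+* LS) sig)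

theorem smul_def' (n : ℕ) (f : LS) : ofAdd n • f = (sig ^ n) f := rfl

theorem order_pow (n : ℕ) {f : LS} (hf : f ≠ 0) :
    (sig ^ n) f ≠ 0 ∧ ((sig ^ n) f).order = 8 ^ n * f.order := by
  have hinj : Function.Injective (sig : LS → LS) := embDomain_injective
  induction n with
  | zero => exact ⟨hf, by simp⟩
  | succ n ih =>
    have h1 : (sig ^ (n + 1)) f = sig ((sig ^ n) f) := by
      rw [pow_succ']
      rfl
    rw [h1]
    refine ⟨fun h => ih.1 (hinj (h.trans (map_zero sig).symm)), ?_⟩
    rw [order_sig ih.1, ih.2]
    ring

/-- the degree function -/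
noncomputable def degData : DegData LS where
  v f := -(f.order : ℚ)
  v_mul a b ha hb := by
    rw [order_mul' ha hb]
    push_cast
    ring
  v_add a b _ _ hab := by
    have h := min_order_le_order_add hab
    rw [max_neg_neg]
    have h' : ((min a.order b.order : ℤ) : ℚ) ≤ ((a + b).order : ℚ) := by exact_mod_cast h
    rw [Int.cast_min] at h'
    exact neg_le_neg h'
  v_smul n a ha := by
    rw [smul_def', (order_pow n ha).2]
    push_cast
    ring

/-- There is a division ring `D` with a multiplicative map from its nonzero elements to the group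
of order automorphisms of the rationals, satisfying the ultrametric inequality, such that
translation by `1` and multiplication by `8` are in the image. -/
theorem exists_tropD :
    ∃ (D : Type) (_ : DivisionRing D) (x t : Dˣ) (act : Dˣ →* (ℚ ≃o ℚ)),
      (∀ s, act x s = s + 1) ∧ (∀ s, act t s = 8 * s) ∧
      ∀ a b c : Dˣ, (a : D) + b = c → ∀ s, act c s ≤ max (act a s) (act b s) := by
  refine exists_extension degData ⟨single (-1) 1, ?_, ?_⟩
  · exact single_ne_zero one_ne_zero
  · show -(((single (-1 : ℤ) (1 : ZMod 2)).order : ℤ) : ℚ) = 1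
    rw [order_single one_ne_zero]
    norm_num

end Pool.Agent.Helper96_TropD
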