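import Pool.Agent.Helper96_TropD.Skew

/-!
The left Ore condition for skew polynomial rings over a field, and the extension of the tropical
maps to the division ring of fractions.
-/

set_option autoImplicit false

namespace Pool.Agent.Helper96_TropD

open Multiplicative Finset

variable {K : Type} [Field K] [MulSemiringAction (Multiplicative ℕ) K]

theorem coeff_monomial_mul (k j : ℕ) (f : K) (q : SP K) :
    SkewPolynomial.coeff (SkewPolynomial.monomial k f * q) (k + j) =
      f * (ofAdd k • SkewPolynomial.coeff q j) := by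
  rw [coeff_mul_sp, Finset.sum_eq_single (k, j)]
  · simp only [SkewPolynomial.coeff_monomial, if_true]
  · intro x hx hne
    rw [HasAntidiagonal.mem_antidiagonal] at hx
    have h1 : k ≠ x.1 := by
      intro h
      apply hne
      have : x.2 = j := by omega
      exact Prod.ext h.symm this
    simp only [SkewPolynomial.coeff_monomial, if_neg h1, zero_mul]
  · intro h
    exact absurd (HasAntidiagonal.mem_antidiagonal.2 (rfl : k + j = k + j)) h

theorem coeff_sub' (p q : SP K) (k : ℕ) : SkewPolynomial.coeff (p - q) k =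
    SkewPolynomial.coeff p k - SkewPolynomial.coeff q k := by
  unfold SkewPolynomial.coeff
  rw [SkewMonoidAlgebra.coeff_sub]
  rfl

/-- degree -/
def deg (p : SP K) : ℕ := (SkewPolynomial.support p).sup id

theorem coeff_of_deg_lt {p : SP K} {i : ℕ} (h : deg p < i) : SkewPolynomial.coeff p i = 0 := by
  by_contra hne
  have := Finset.le_sup (f := id) (SkewPolynomial.mem_support_iff.2 hne)
  exact absurd h (not_lt.2 this)

theorem coeff_deg_ne_zero {p : SP K} (hp : p ≠ 0) : SkewPolynomial.coeff p (deg p) ≠ 0 := by
  have h := Finset.exists_mem_eq_sup _ (supp_nonempty hp) (id : ℕ → ℕ)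
  obtain ⟨i, hi, h⟩ := h
  have : deg p = i := h
  rw [this]
  exact SkewPolynomial.mem_support_iff.1 hi

theorem deg_lt_of {p : SP K} (hp : p ≠ 0) {n : ℕ}
    (h : ∀ i, n ≤ i → SkewPolynomial.coeff p i = 0) : deg p < n := by
  by_contra hlt
  push Not at hlt
  exact coeff_deg_ne_zero hp (h _ hlt)

theorem ore_aux (W : DegData K) (n : ℕ) : ∀ p q : SP K, p ≠ 0 → q ≠ 0 → deg p + deg q = n →
    ∃ a b : SP K, a ≠ 0 ∧ b ≠ 0 ∧ a * p = b * q := by
  induction n using Nat.strong_induction_on with
  | _ n ih =>
    -- the case where `q` has smaller degree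
    have main : ∀ p q : SP K, p ≠ 0 → q ≠ 0 → deg p + deg q = n → deg q ≤ deg p →
        ∃ a b : SP K, a ≠ 0 ∧ b ≠ 0 ∧ a * p = b * q := by
      intro p q hp hq hn hle
      set k := deg p - deg q with hk
      have hkq : k + deg q = deg p := by omega
      set f : K := SkewPolynomial.coeff p (deg p) / (ofAdd k • SkewPolynomial.coeff q (deg q))
        with hf
      have hq1 := coeff_deg_ne_zero hq
      have hq2 := smul_ne_zero' k hq1
      set M : SP K := SkewPolynomial.monomial k f with hM
      have hf0 : f ≠ 0 := div_ne_zero (coeff_deg_ne_zero hp) hq2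
      have hM0 : M ≠ 0 := by
        rw [hM, Ne, SkewPolynomial.monomial_eq_zero_iff]
        exact hf0
      by_cases h0 : p - M * q = 0
      · exact ⟨1, M, one_ne_zero, hM0, by rw [one_mul]; exact sub_eq_zero.1 h0⟩
      · have hlt : deg (p - M * q) < deg p := by
          apply deg_lt_of h0
          intro i hi
          rw [coeff_sub']
          have hi' : i = k + (i - k) := by omega
          rw [hi', hM, coeff_monomial_mul]
          rcases hi.lt_or_eq with h | h
          · have h1 : SkewPolynomial.coeff p (k + (i - k)) = 0 := by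
              rw [← hi']; exact coeff_of_deg_lt h
            have h2 : SkewPolynomial.coeff q (i - k) = 0 := coeff_of_deg_lt (by omega)
            rw [h1, h2, smul_zero, mul_zero, sub_zero]
          · have h1 : i - k = deg q := by omega
            rw [h1, hkq, hf, div_mul_cancel₀ _ hq2, sub_self]
        obtain ⟨a, b, ha, hb, hab⟩ := ih _ (by omega) (p - M * q) q h0 hq rfl
        refine ⟨a, b + a * M, ha, ?_, ?_⟩
        · intro hz
          have : a * p = 0 := by
            have h1 : a * p = (b + a * M) * q := by
              rw [add_mul, ← hab, mul_sub, mul_assoc, sub_add_cancel]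
            rw [h1, hz, zero_mul]
          exact sp_mul_ne_zero W ha hp this
        · rw [add_mul, ← hab, mul_sub, mul_assoc, sub_add_cancel]
    intro p q hp hq hn
    rcases le_total (deg q) (deg p) with h | h
    · exact main p q hp hq hn h
    · obtain ⟨a, b, ha, hb, hab⟩ := main q p hq hp (by omega) h
      exact ⟨b, a, hb, ha, hab.symm⟩

/-- the skew polynomial ring is left Ore -/
theorem ore_condition (W : DegData K) (p q : SP K) (hq : q ≠ 0) :
    ∃ a b : SP K, a ≠ 0 ∧ a * p = b * q := by
  by_cases hp : p = 0
  · exact ⟨1, 0, one_ne_zero, by rw [hp, mul_zero, zero_mul]⟩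
  · obtain ⟨a, b, ha, _, hab⟩ := ore_aux W _ p q hp hq rfl
    exact ⟨a, b, ha, hab⟩

theorem sp_noZeroDivisors (W : DegData K) : NoZeroDivisors (SP K) where
  eq_zero_or_eq_zero_of_mul_eq_zero := by
    intro a b h
    by_contra hne
    push Not at hne
    exact sp_mul_ne_zero W hne.1 hne.2 h

theorem trop_monomial {W : DegData K} (n : ℕ) (f : K) (hf : f ≠ 0)
    (h : (SkewPolynomial.monomial n f : SP K) ≠ 0) (s : ℚ) :
    trop W (SkewPolynomial.monomial n f : SP K) h s = W.v f + 8 ^ n * s := by
  apply le_antisymm
  · rw [trop_le_iff]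
    intro i hi
    unfold lev
    rw [SkewPolynomial.coeff_monomial] at hi ⊢
    by_cases hni : n = i
    · rw [if_pos hni, hni]
    · rw [if_neg hni] at hi
      exact absurd rfl hi
  · have hc : SkewPolynomial.coeff (SkewPolynomial.monomial n f : SP K) n = f := by
      rw [SkewPolynomial.coeff_monomial, if_pos rfl]
    have h1 := lev_le_trop (W := W) h (i := n) (by rw [hc]; exact hf) s
    unfold lev at h1
    rw [hc] at h1
    exact h1

/-- The tropical map as a monoid homomorphism to a group with zero. -/
noncomputable def tropHom (W : DegData K) : SP K →* WithZero (ℚ ≃o ℚ) := by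
  classical
  exact
  { toFun := fun p => if hp : p = 0 then 0 else ((tropIso W p hp : ℚ ≃o ℚ) : WithZero (ℚ ≃o ℚ))
    map_one' := by
      rw [dif_neg one_ne_zero]
      have h1 : tropIso W (1 : SP K) one_ne_zero = 1 := by
        ext s
        have h2 : (SkewPolynomial.monomial 0 (1 : K) : SP K) ≠ 0 := by
          rw [Ne, SkewPolynomial.monomial_eq_zero_iff]
          exact one_ne_zero
        have h3 := trop_monomial (W := W) 0 1 one_ne_zero h2 s
        rw [W.v_one, pow_zero, one_mul, zero_add] at h3
        exact h3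
      rw [h1]
      rfl
    map_mul' := by
      intro p q
      by_cases hp : p = 0
      · simp [hp]
      by_cases hq : q = 0
      · simp [hq]
      have hpq := sp_mul_ne_zero W hp hq
      simp only [hp, hq, hpq, dif_neg, not_false_iff]
      rw [← WithZero.coe_mul]
      congr 1
      ext s
      exact trop_mul hp hq hpq s }

theorem tropHom_of_ne_zero {W : DegData K} {p : SP K} (hp : p ≠ 0) :
    tropHom W p = ((tropIso W p hp : ℚ ≃o ℚ) : WithZero (ℚ ≃o ℚ)) := by
  classical
  exact dif_neg hp

/-- two fractions have a common denominator -/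
theorem common_denom [OreLocalization.OreSet (nonZeroDivisors (SP K))]
    (a b : OreLocalization (nonZeroDivisors (SP K)) (SP K)) :
    ∃ (S : nonZeroDivisors (SP K)) (r₁ r₂ : SP K),
      (OreLocalization.numeratorHom (S : SP K) * a = OreLocalization.numeratorHom r₁) ∧
      (OreLocalization.numeratorHom (S : SP K) * b = OreLocalization.numeratorHom r₂) := by
  induction a with | _ r₁ s₁
  induction b with | _ r₂ s₂
  have h := OreLocalization.ore_eq (s₁ : SP K) s₂
  refine ⟨OreLocalization.oreDenom (s₁ : SP K) s₂ * s₁,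
    (OreLocalization.oreDenom (s₁ : SP K) s₂ : SP K) * r₁,
    OreLocalization.oreNum (s₁ : SP K) s₂ * r₂, ?_, ?_⟩
  · rw [OreLocalization.numeratorHom_apply, OreLocalization.numeratorHom_apply, Submonoid.coe_mul,
      OreLocalization.mul_cancel']
  · rw [OreLocalization.numeratorHom_apply, OreLocalization.numeratorHom_apply, Submonoid.coe_mul,
      h, OreLocalization.mul_cancel']

theorem exists_extension (W : DegData K) (hc : ∃ f : K, f ≠ 0 ∧ W.v f = 1) :
    ∃ (D : Type) (_ : DivisionRing D) (x t : Dˣ) (act : Dˣ →* (ℚ ≃o ℚ)),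
      (∀ s, act x s = s + 1) ∧ (∀ s, act t s = 8 * s) ∧
      ∀ a b c : Dˣ, (a : D) + b = c → ∀ s, act c s ≤ max (act a s) (act b s) := by
  classical
  have hnz := sp_noZeroDivisors W
  have hore : Nonempty (OreLocalization.OreSet (nonZeroDivisors (SP K))) := by
    rw [OreLocalization.nonempty_oreSet_iff_of_noZeroDivisors]
    intro r s
    obtain ⟨a, b, ha, hab⟩ := ore_condition W r s (nonZeroDivisors.coe_ne_zero s)
    exact ⟨b, ⟨a, mem_nonZeroDivisors_of_ne_zero ha⟩, hab⟩
  let _ := hore.some
  -- values at nonzero elements are units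
  have hunit : ∀ s : nonZeroDivisors (SP K), tropHom W (s : SP K) ≠ 0 := fun s => by
    rw [tropHom_of_ne_zero (nonZeroDivisors.coe_ne_zero s)]
    exact WithZero.coe_ne_zero
  let fS : nonZeroDivisors (SP K) →* (WithZero (ℚ ≃o ℚ))ˣ :=
    { toFun := fun s => Units.mk0 (tropHom W (s : SP K)) (hunit s)
      map_one' := by
        ext
        simp
      map_mul' := by
        intro s s'
        ext
        simp }
  have hfS : ∀ s : nonZeroDivisors (SP K), tropHom W (s : SP K) = fS s := fun s => rfl
  let D := OreLocalization (nonZeroDivisors (SP K)) (SP K)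
  let U : D →* WithZero (ℚ ≃o ℚ) := OreLocalization.universalMulHom (tropHom W) fS hfS
  let act : Dˣ →* (ℚ ≃o ℚ) :=
    (WithZero.unitsWithZeroEquiv (α := ℚ ≃o ℚ)).toMonoidHom.comp (Units.map U)
  have hact : ∀ d : Dˣ, ((act d : ℚ ≃o ℚ) : WithZero (ℚ ≃o ℚ)) = U (d : D) := by
    intro d
    exact WithZero.coe_unitsWithZeroEquiv_eq_units_val (Units.map U d)
  -- units coming from the skew polynomial ring
  let num : (p : SP K) → p ≠ 0 → Dˣ := fun p hp =>
    OreLocalization.numeratorUnit (⟨p, mem_nonZeroDivisors_of_ne_zero hp⟩ :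
      nonZeroDivisors (SP K))
  have hnum : ∀ (p : SP K) (hp : p ≠ 0), ((num p hp : Dˣ) : D) = OreLocalization.numeratorHom p :=
    fun p hp => rfl
  have hactnum : ∀ (p : SP K) (hp : p ≠ 0), act (num p hp) = tropIso W p hp := by
    intro p hp
    apply WithZero.coe_injective
    rw [hact, hnum p hp]
    show OreLocalization.universalMulHom (tropHom W) fS hfS (OreLocalization.numeratorHom p) = _
    rw [OreLocalization.universalMulHom_commutes, tropHom_of_ne_zero hp]
  obtain ⟨f, hf, hv⟩ := hc
  have hx : (SkewPolynomial.monomial 0 f : SP K) ≠ 0 := by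
    rw [Ne, SkewPolynomial.monomial_eq_zero_iff]; exact hf
  have ht : (SkewPolynomial.monomial 1 (1 : K) : SP K) ≠ 0 := by
    rw [Ne, SkewPolynomial.monomial_eq_zero_iff]; exact one_ne_zero
  refine ⟨D, inferInstance, num _ hx, num _ ht, act, ?_, ?_, ?_⟩
  · intro s
    rw [hactnum _ hx, tropIso_apply, trop_monomial 0 f hf hx, hv]
    ring
  · intro s
    rw [hactnum _ ht, tropIso_apply, trop_monomial 1 1 one_ne_zero ht, W.v_one]
    ring
  · intro a b c habc s
    obtain ⟨S, r₁, r₂, h₁, h₂⟩ := common_denom (a : D) (b : D)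
    have hS : (S : SP K) ≠ 0 := nonZeroDivisors.coe_ne_zero S
    have hinj : ∀ (d : Dˣ) (r : SP K), OreLocalization.numeratorHom (S : SP K) * (d : D) =
        OreLocalization.numeratorHom r →
        ∃ hr : r ≠ 0, ∀ s, act (num S hS) (act d s) = tropIso W r hr s := by
      intro d r hd
      have hr : r ≠ 0 := by
        intro h0
        rw [h0] at hd
        have h1 : (num S hS : Dˣ) * d = (0 : D) := by
          rw [hnum S hS, hd, OreLocalization.numeratorHom_apply, OreLocalization.zero_oreDiv]
        have h2 := (num S hS * d).ne_zero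
        exact h2 h1
      refine ⟨hr, fun s => ?_⟩
      have h1 : num S hS * d = num r hr := by
        ext
        rw [Units.val_mul, hnum S hS, hnum r hr]
        exact hd
      rw [← hactnum r hr, ← h1, map_mul]
      rfl
    have h₃ : OreLocalization.numeratorHom (S : SP K) * (c : D) =
        OreLocalization.numeratorHom (r₁ + r₂) := by
      rw [← habc, mul_add, h₁, h₂, OreLocalization.numeratorHom_apply,
        OreLocalization.numeratorHom_apply, OreLocalization.numeratorHom_apply,
        OreLocalization.add_oreDiv]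
    obtain ⟨hr₁, e₁⟩ := hinj a r₁ h₁
    obtain ⟨hr₂, e₂⟩ := hinj b r₂ h₂
    obtain ⟨hr₃, e₃⟩ := hinj c (r₁ + r₂) h₃
    have h := trop_add (W := W) hr₁ hr₂ hr₃ s
    rw [← tropIso_apply, ← tropIso_apply, ← tropIso_apply, ← e₁, ← e₂, ← e₃] at h
    rwa [← (act (num S hS)).monotone.map_max, (act (num S hS)).le_iff_le] at h

end Pool.Agent.Helper96_TropD
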