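import Mathlib

/-!
Tropical maps of skew polynomials.

`K` is a field with an endomorphism `σ` (given as an action of `Multiplicative ℕ`) and a degree
function `v` with values in `ℚ` such that `v (σ a) = 8 * v a`.  A nonzero skew polynomial
`p = Σ a_i T^i` (with `T a = σ(a) T`) acts on `ℚ` by `s ↦ max_i (v a_i + 8^i s)`; this map is
multiplicative, and it is an order automorphism of `ℚ`.
-/

set_option autoImplicit false

namespace Pool.Agent.Helper96_TropD

open Multiplicative Finset

/-- Degree function on a field with an endomorphism which multiplies degrees by `8`. -/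
structure DegData (K : Type) [Field K] [MulSemiringAction (Multiplicative ℕ) K] where
  v : K → ℚ
  v_mul : ∀ a b : K, a ≠ 0 → b ≠ 0 → v (a * b) = v a + v b
  v_add : ∀ a b : K, a ≠ 0 → b ≠ 0 → a + b ≠ 0 → v (a + b) ≤ max (v a) (v b)
  v_smul : ∀ (n : ℕ) (a : K), a ≠ 0 → v ((ofAdd n) • a) = 8 ^ n * v a

variable {K : Type} [Field K] [MulSemiringAction (Multiplicative ℕ) K] (W : DegData K)

namespace DegData

theorem v_one : W.v 1 = 0 := by
  have h := W.v_mul 1 1 one_ne_zero one_ne_zero
  rw [one_mul] at h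
  linarith

theorem v_neg (a : K) : W.v (-a) = W.v a := by
  by_cases ha : a = 0
  · rw [ha, neg_zero]
  have h1 : W.v (-1) = 0 := by
    have h := W.v_mul (-1) (-1) (neg_ne_zero.2 one_ne_zero) (neg_ne_zero.2 one_ne_zero)
    rw [neg_mul_neg, one_mul, W.v_one] at h
    linarith
  have h2 := W.v_mul (-1) a (neg_ne_zero.2 one_ne_zero) ha
  rw [neg_one_mul, h1, zero_add] at h2
  exact h2

/-- elements of degree at most `r` -/
def ball (r : ℚ) : AddSubgroup K where
  carrier := {f | f ≠ 0 → W.v f ≤ r}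
  zero_mem' := fun h => absurd rfl h
  add_mem' := by
    intro a b ha hb hab
    by_cases h1 : a = 0
    · rw [h1, zero_add] at hab ⊢
      exact hb hab
    by_cases h2 : b = 0
    · rw [h2, add_zero] at hab ⊢
      exact ha hab
    exact (W.v_add a b h1 h2 hab).trans (max_le (ha h1) (hb h2))
  neg_mem' := by
    intro a ha hna
    rw [W.v_neg]
    exact ha (neg_ne_zero.1 hna)

/-- elements of degree less than `r` -/
def oball (r : ℚ) : AddSubgroup K where
  carrier := {f | f ≠ 0 → W.v f < r}
  zero_mem' := fun h => absurd rfl h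
  add_mem' := by
    intro a b ha hb hab
    by_cases h1 : a = 0
    · rw [h1, zero_add] at hab ⊢
      exact hb hab
    by_cases h2 : b = 0
    · rw [h2, add_zero] at hab ⊢
      exact ha hab
    exact (W.v_add a b h1 h2 hab).trans_lt (max_lt (ha h1) (hb h2))
  neg_mem' := by
    intro a ha hna
    rw [W.v_neg]
    exact ha (neg_ne_zero.1 hna)

theorem mem_ball {r : ℚ} {f : K} : f ∈ W.ball r ↔ (f ≠ 0 → W.v f ≤ r) := Iff.rfl

theorem mem_oball {r : ℚ} {f : K} : f ∈ W.oball r ↔ (f ≠ 0 → W.v f < r) := Iff.rfl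

end DegData

/-- The skew polynomial ring. -/
abbrev SP (K : Type) [Field K] [MulSemiringAction (Multiplicative ℕ) K] := SkewPolynomial K

theorem coeff_mul_sp (p q : SP K) (k : ℕ) :
    SkewPolynomial.coeff (p * q) k =
      ∑ x ∈ antidiagonal k, SkewPolynomial.coeff p x.1 * (ofAdd x.1 • SkewPolynomial.coeff q x.2) := by
  classical
  unfold SkewPolynomial.coeff
  rw [SkewMonoidAlgebra.coeff_mul_antidiagonal_of_finset p q (ofAdd k)
    ((antidiagonal k).map ⟨fun x => (ofAdd x.1, ofAdd x.2), fun x y h => by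
      simpa [Prod.ext_iff] using h⟩)]
  · rw [sum_map]
    rfl
  · intro x
    rw [mem_map]
    constructor
    · rintro ⟨y, hy, rfl⟩
      rw [← HasAntidiagonal.mem_antidiagonal.1 hy]
      rfl
    · intro h
      refine ⟨(toAdd x.1, toAdd x.2), ?_, rfl⟩
      rw [HasAntidiagonal.mem_antidiagonal]
      have := congrArg toAdd h
      simpa using this

variable {W}

/-- level of the `i`-th term of `p` at the point `s` -/
def lev (W : DegData K) (p : SP K) (i : ℕ) (s : ℚ) : ℚ :=
  W.v (SkewPolynomial.coeff p i) + 8 ^ i * s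

theorem supp_nonempty {p : SP K} (hp : p ≠ 0) : (SkewPolynomial.support p).Nonempty := by
  rw [nonempty_iff_ne_empty]
  intro h
  exact hp (SkewPolynomial.support_eq_empty.1 h)

/-- the tropical map of a nonzero skew polynomial -/
noncomputable def trop (W : DegData K) (p : SP K) (hp : p ≠ 0) (s : ℚ) : ℚ :=
  (SkewPolynomial.support p).sup' (supp_nonempty hp) fun i => lev W p i s

theorem lev_le_trop {p : SP K} (hp : p ≠ 0) {i : ℕ} (hi : SkewPolynomial.coeff p i ≠ 0) (s : ℚ) :
    lev W p i s ≤ trop W p hp s :=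
  le_sup' (fun i => lev W p i s) (SkewPolynomial.mem_support_iff.2 hi)

theorem trop_le_iff {p : SP K} (hp : p ≠ 0) (s r : ℚ) :
    trop W p hp s ≤ r ↔ ∀ i, SkewPolynomial.coeff p i ≠ 0 → lev W p i s ≤ r := by
  unfold trop
  rw [sup'_le_iff]
  constructor
  · intro h i hi
    exact h i (SkewPolynomial.mem_support_iff.2 hi)
  · intro h i hi
    exact h i (SkewPolynomial.mem_support_iff.1 hi)

theorem exists_lev_eq {p : SP K} (hp : p ≠ 0) (s : ℚ) :
    ∃ i, SkewPolynomial.coeff p i ≠ 0 ∧ lev W p i s = trop W p hp s := by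
  obtain ⟨i, hi, h⟩ := exists_mem_eq_sup' (supp_nonempty hp) fun i => lev W p i s
  exact ⟨i, SkewPolynomial.mem_support_iff.1 hi, h.symm⟩

/-- the largest index at which the maximum is attained -/
theorem exists_top {p : SP K} (hp : p ≠ 0) (s : ℚ) :
    ∃ i, SkewPolynomial.coeff p i ≠ 0 ∧ lev W p i s = trop W p hp s ∧
      ∀ j, i < j → SkewPolynomial.coeff p j ≠ 0 → lev W p j s < trop W p hp s := by
  classical
  obtain ⟨i₀, hi₀, h₀⟩ := exists_lev_eq (W := W) hp s
  have hne : ((SkewPolynomial.support p).filter fun i => lev W p i s = trop W p hp s).Nonempty :=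
    ⟨i₀, mem_filter.2 ⟨SkewPolynomial.mem_support_iff.2 hi₀, h₀⟩⟩
  have hmax := max'_mem _ hne
  rw [mem_filter] at hmax
  refine ⟨_, SkewPolynomial.mem_support_iff.1 hmax.1, hmax.2, fun j hj hc => ?_⟩
  refine lt_of_le_of_ne (lev_le_trop hp hc s) fun he => ?_
  have := le_max' ((SkewPolynomial.support p).filter fun i => lev W p i s = trop W p hp s) j
    (mem_filter.2 ⟨SkewPolynomial.mem_support_iff.2 hc, he⟩)
  exact absurd hj (not_lt.2 this)

theorem smul_ne_zero' {a : K} (n : ℕ) (ha : a ≠ 0) : ofAdd n • a ≠ 0 := by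
  have h : (MulSemiringAction.toRingHom (Multiplicative ℕ) K (ofAdd n)) a ≠ 0 :=
    (map_ne_zero _).2 ha
  simpa using h

theorem term_ne_zero {p q : SP K} {i j : ℕ} (h : SkewPolynomial.coeff p i *
    (ofAdd i • SkewPolynomial.coeff q j) ≠ 0) :
    SkewPolynomial.coeff p i ≠ 0 ∧ SkewPolynomial.coeff q j ≠ 0 := by
  constructor
  · intro h0; rw [h0, zero_mul] at h; exact h rfl
  · intro h0; rw [h0, smul_zero, mul_zero] at h; exact h rfl

theorem v_term {p q : SP K} {i j : ℕ} (hi : SkewPolynomial.coeff p i ≠ 0)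
    (hj : SkewPolynomial.coeff q j ≠ 0) (s : ℚ) :
    W.v (SkewPolynomial.coeff p i * (ofAdd i • SkewPolynomial.coeff q j)) =
      W.v (SkewPolynomial.coeff p i) + 8 ^ i * lev W q j s - 8 ^ (i + j) * s := by
  rw [W.v_mul _ _ hi (smul_ne_zero' i hj), W.v_smul i _ hj]
  unfold lev
  rw [pow_add]
  ring

theorem mul_upper {p q : SP K} (hp : p ≠ 0) (hq : q ≠ 0) (hpq : p * q ≠ 0) (s : ℚ) :
    trop W (p * q) hpq s ≤ trop W p hp (trop W q hq s) := by
  rw [trop_le_iff]
  intro k hk
  unfold lev
  have key : SkewPolynomial.coeff (p * q) k ∈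
      W.ball (trop W p hp (trop W q hq s) - 8 ^ k * s) := by
    rw [coeff_mul_sp]
    refine AddSubgroup.sum_mem _ fun x hx => ?_
    rw [DegData.mem_ball]
    intro hne
    obtain ⟨h1, h2⟩ := term_ne_zero hne
    rw [v_term h1 h2 s, HasAntidiagonal.mem_antidiagonal.1 hx]
    have h3 := lev_le_trop (W := W) hp h1 (trop W q hq s)
    have h4 := lev_le_trop (W := W) hq h2 s
    have h5 : (0 : ℚ) < 8 ^ x.1 := by positivity
    unfold lev at h3
    have h6 := mul_le_mul_of_nonneg_left h4 h5.le
    linarith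
  have := key hk
  linarith

theorem mul_lower {p q : SP K} (hp : p ≠ 0) (hq : q ≠ 0) (s : ℚ) :
    ∃ k, SkewPolynomial.coeff (p * q) k ≠ 0 ∧
      trop W p hp (trop W q hq s) ≤ lev W (p * q) k s := by
  classical
  set m := trop W q hq s with hm
  set n := trop W p hp m with hn
  obtain ⟨j₀, hj₀, hj₁, hj₂⟩ := exists_top (W := W) hq s
  obtain ⟨i₀, hi₀, hi₁, hi₂⟩ := exists_top (W := W) hp m
  have hmem : (i₀, j₀) ∈ antidiagonal (i₀ + j₀) := HasAntidiagonal.mem_antidiagonal.2 rfl
  set main := SkewPolynomial.coeff p i₀ * (ofAdd i₀ • SkewPolynomial.coeff q j₀) with hmain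
  have hmain0 : main ≠ 0 := mul_ne_zero hi₀ (smul_ne_zero' i₀ hj₀)
  have hv : W.v main = n - 8 ^ (i₀ + j₀) * s := by
    rw [hmain, v_term hi₀ hj₀ s, hj₁, ← hm]
    have : W.v (SkewPolynomial.coeff p i₀) + 8 ^ i₀ * m = n := hi₁
    rw [this]
  set rest := ∑ x ∈ (antidiagonal (i₀ + j₀)).erase (i₀, j₀), SkewPolynomial.coeff p x.1 *
    (ofAdd x.1 • SkewPolynomial.coeff q x.2) with hrest
  have hsum : SkewPolynomial.coeff (p * q) (i₀ + j₀) = main + rest := by
    rw [coeff_mul_sp, ← add_sum_erase _ _ hmem]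
  have hr : rest ∈ W.oball (n - 8 ^ (i₀ + j₀) * s) := by
    refine AddSubgroup.sum_mem _ fun x hx => ?_
    rw [mem_erase, HasAntidiagonal.mem_antidiagonal] at hx
    rw [DegData.mem_oball]
    intro hne
    obtain ⟨h1, h2⟩ := term_ne_zero hne
    rw [v_term h1 h2 s, hx.2]
    have h5 : (0 : ℚ) < 8 ^ x.1 := by positivity
    have h3 := lev_le_trop (W := W) hp h1 m
    have h4 := lev_le_trop (W := W) hq h2 s
    rw [← hm] at h4
    rw [← hn] at h3
    rcases lt_trichotomy x.1 i₀ with h | h | h
    · -- then the second index is larger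
      have h' : j₀ < x.2 := by omega
      have h6 := hj₂ x.2 h' h2
      rw [← hm] at h6
      have h7 := mul_lt_mul_of_pos_left h6 h5
      unfold lev at h3
      linarith
    · exfalso
      apply hx.1
      have h2 : x.2 = j₀ := by omega
      exact Prod.ext h h2
    · have h6 := hi₂ x.1 h h1
      rw [← hn] at h6
      have h7 := mul_le_mul_of_nonneg_left h4 h5.le
      unfold lev at h6
      linarith
  refine ⟨i₀ + j₀, ?_, ?_⟩
  · intro h0
    have : main ∈ W.oball (n - 8 ^ (i₀ + j₀) * s) := by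
      have h1 : main = -rest := by
        rw [hsum] at h0
        exact eq_neg_of_add_eq_zero_left h0
      rw [h1]
      exact AddSubgroup.neg_mem _ hr
    have := this hmain0
    rw [hv] at this
    exact lt_irrefl _ this
  · unfold lev
    by_contra hlt
    push Not at hlt
    have h1 : SkewPolynomial.coeff (p * q) (i₀ + j₀) ∈ W.oball (n - 8 ^ (i₀ + j₀) * s) := by
      rw [DegData.mem_oball]
      intro _
      linarith
    have : main ∈ W.oball (n - 8 ^ (i₀ + j₀) * s) := by
      have h2 : main = SkewPolynomial.coeff (p * q) (i₀ + j₀) - rest := by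
        rw [hsum]; ring
      rw [h2]
      exact AddSubgroup.sub_mem _ h1 hr
    have := this hmain0
    rw [hv] at this
    exact lt_irrefl _ this

theorem sp_mul_ne_zero (W : DegData K) {p q : SP K} (hp : p ≠ 0) (hq : q ≠ 0) : p * q ≠ 0 := by
  obtain ⟨k, hk, _⟩ := mul_lower (W := W) hp hq 0
  intro h
  rw [h] at hk
  exact hk (SkewPolynomial.coeff_zero k)

theorem trop_mul {p q : SP K} (hp : p ≠ 0) (hq : q ≠ 0) (hpq : p * q ≠ 0) (s : ℚ) :
    trop W (p * q) hpq s = trop W p hp (trop W q hq s) := by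
  apply le_antisymm (mul_upper hp hq hpq s)
  obtain ⟨k, hk, h⟩ := mul_lower (W := W) hp hq s
  exact h.trans (lev_le_trop hpq hk s)

theorem trop_add {p q : SP K} (hp : p ≠ 0) (hq : q ≠ 0) (hpq : p + q ≠ 0) (s : ℚ) :
    trop W (p + q) hpq s ≤ max (trop W p hp s) (trop W q hq s) := by
  rw [trop_le_iff]
  intro k hk
  unfold lev
  have hc : SkewPolynomial.coeff (p + q) k =
      SkewPolynomial.coeff p k + SkewPolynomial.coeff q k := by
    unfold SkewPolynomial.coeff
    rw [SkewMonoidAlgebra.coeff_add]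
    rfl
  have key : SkewPolynomial.coeff (p + q) k ∈
      W.ball (max (trop W p hp s) (trop W q hq s) - 8 ^ k * s) := by
    rw [hc]
    apply AddSubgroup.add_mem
    · intro h
      have h1 := lev_le_trop (W := W) hp h s
      unfold lev at h1
      have := le_max_left (trop W p hp s) (trop W q hq s)
      linarith
    · intro h
      have h1 := lev_le_trop (W := W) hq h s
      unfold lev at h1
      have := le_max_right (trop W p hp s) (trop W q hq s)
      linarith
  have := key hk
  linarith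

theorem trop_strictMono {p : SP K} (hp : p ≠ 0) : StrictMono (trop W p hp) := by
  intro s s' hs
  obtain ⟨i, hi, h⟩ := exists_lev_eq (W := W) hp s
  have h1 := lev_le_trop (W := W) hp hi s'
  rw [← h]
  refine lt_of_lt_of_le ?_ h1
  unfold lev
  have h5 : (0 : ℚ) < 8 ^ i := by positivity
  have := mul_lt_mul_of_pos_left hs h5
  linarith

theorem trop_surjective {p : SP K} (hp : p ≠ 0) : Function.Surjective (trop W p hp) := by
  intro u
  have hne := supp_nonempty hp
  let g : ℕ → ℚ := fun i => (u - W.v (SkewPolynomial.coeff p i)) / 8 ^ i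
  obtain ⟨i, hi, h⟩ := exists_mem_eq_inf' hne g
  refine ⟨(SkewPolynomial.support p).inf' hne g, ?_⟩
  have h8 : ∀ j : ℕ, (0 : ℚ) < 8 ^ j := fun j => by positivity
  apply le_antisymm
  · rw [trop_le_iff]
    intro j hj
    have h1 : (SkewPolynomial.support p).inf' hne g ≤ g j :=
      inf'_le _ (SkewPolynomial.mem_support_iff.2 hj)
    have h2 := mul_le_mul_of_nonneg_left h1 (h8 j).le
    have h3 : 8 ^ j * g j = u - W.v (SkewPolynomial.coeff p j) := by
      simp only [g]
      field_simp
    unfold lev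
    linarith
  · have h1 := lev_le_trop (W := W) hp (SkewPolynomial.mem_support_iff.1 hi)
      ((SkewPolynomial.support p).inf' hne g)
    refine le_trans (le_of_eq ?_) h1
    rw [h]
    unfold lev
    simp only [g]
    have := (h8 i).ne'
    field_simp
    ring

/-- the tropical map as an order automorphism -/
noncomputable def tropIso (W : DegData K) (p : SP K) (hp : p ≠ 0) : ℚ ≃o ℚ :=
  StrictMono.orderIsoOfSurjective _ (trop_strictMono (W := W) hp) (trop_surjective hp)

theorem tropIso_apply {p : SP K} (hp : p ≠ 0) (s : ℚ) : tropIso W p hp s = trop W p hp s := rfl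

end Pool.Agent.Helper96_TropD
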